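import Pool.Agent.H885.SymW
import Pool.Agent.H885.BaseN
import Pool.Agent.H885.UnifG
import Pool.Agent.H885.Cnt
import Pool.Agent.H885.HodgeB

/-!
# Hodge tensors and complex multiplication at the fibres near degenerate central fibres, uniformly in the variations

For `j = 1, …, N` let `𝕍_j` be a polarizable variation of `ℤ`-Hodge structure of geometric origin over `ℚ` (a direct factor of
the cohomology of a smooth projective family), of rank `n` and of any weight, over the complement of a divisor with normal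
crossings in a neighbourhood of `0` in the affine space of **any dimension `m`**, with unipotent local monodromies: the
central fibre over `0` may be **degenerate** (or not: then the residues `R` are zero). In a flat basis of the lattice and
rational bases of the canonical extension (adapted to the Hodge filtration) the period matrix is
`P_j(x) = Ω_j x_1^(R_{j1}) ⋯ x_m^(R_{jm}) Z_j(x)`; the residues `R_{ji}` are commuting nilpotent matrices (they can be made
integral), `Z_j` is a matrix of G-functions over `ℚ` in the `m` variables, and `Ω_j` is the period matrix of the limit mixed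
Hodge structure. In the direction `a_j ∈ ℤ^m` one has `P_j(a_j u) = C_j u^(R_j) Z_j(a_j u)`, where `R_j = ∑_i R_{ji}` and
`C_j = Ω_j ∏_i a_{ji}^(R_{ji})` is the period matrix of the limit at the tangential base point `a_j`. At the rational points
`x_j = a_j / b_j`, `b_j ∈ ℕ`, the period matrix is `P_j(x_j) = C_j exp (-log(b_j) R_j) Z_j(a_j / b_j)`.

By the conjecture (Q1) the CM points of such a variation are in a proper closed subset of the base, unless the period map is a
dominant algebraic map to a Shimura variety; more generally the points at which there are more Hodge tensors than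
generically should be in finitely many maximal special subvarieties, apart from the typical ones. We bound the number of the
exceptional rational points near a fixed point of the base, **uniformly in all variations** and in all directions.

**The group.** `X = (X_j)` is called a symmetry (`Fibres.IsSymmetry`) if all conjugates `(exp (λ R_j) X_j exp (-λ R_j))_j` are
infinitesimal symmetries of the restrictions of the `Z_j` to the lines `ℚ a_j` (separately for points with different
denominators), and `G°` is the group generated by the exponentials of the symmetries. For variations of geometric origin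
`C G° C⁻¹` is the identity component of the Zariski closure of the monodromy group of `⨁ 𝕍_j` on the lines (the sum over the `j`
with the same `b_j`; the product of these groups for the different denominators): a symmetry in this sense is in the
Lie algebra of the differential Galois group of `x^R Z`, and conversely, as the connected monodromy group is semisimple
(Deligne) it has no quotient `𝔾_a`, hence `log x` is transcendental over the field generated by `x^R Z` over `ℂ(x)`. Let `Γ` be a
subgroup of finite index of the monodromy group which is contained in the identity component; it consists of integral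
matrices, preserves the polarizations (`IsMonodromy`), and it is Zariski dense (`IsDense`; Schlesinger). (This paragraph is
not part of the Lean theorem.)

**Theorem.** Fix `m, n, N, q, s, e, δ`. There is `E` with the following property for all `M`, all complex numbers
`β_1, …, β_s`, all `H, h, w` and all `b₀ ≥ (2 H (h + w + 2))^E`. We consider

* **all** tuples `b_1, …, b_N` of denominators in the window `[b₀, b₀ + w]`, at most `M` of them different, such that the
  distances of different `b_j` are larger than `2^(m+1) H (h + 2)`,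
* **all** variations, that is, all commuting nilpotent integral `R_{ji}` and all `n × n` systems
  `T (x_i ∂Z_j / ∂x_i + R_{ji} Z_j) = Z_j A_{ji}` of degree at most `q`, for which the height of the system and the growth
  constants of the coefficients and of the denominators of `Z_j` and `Z_j⁻¹` are at most `H`,
* **all** numerators `a_j ∈ ℤ^m` with `|a_j| ≤ h`, such that the line `ℚ a_j` is not contained in the polar locus `T = 0`,
* **all** limits with periods (entries of the `C_j`) algebraic of degree at most `e` over `ℚ(β_1, …, β_s)` (so if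
  `R_{ji} ≠ 0` and `a_{ji} ≠ ± 1` then the logarithm of `|a_{ji}|` is one of the limit periods).

The conclusion (`Fibres.Good`) for such a tuple of points is the following, for all polarizations, weights, Hodge filtrations
and groups `Γ` as above.

* If the monodromy group (the group of the `γ_j`, `γ ∈ Γ`) of `𝕍_j` on the line `ℚ a_j` is infinite then the fibre of `𝕍_j` at
  `x_j` is **not a CM Hodge structure**.
* If `Γ` is Zariski dense then **all Hodge tensors of degree at most `δ`** of the sum `⨁ 𝕍_(j, x_j)` of the fibres are fixed by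
  `C G° C⁻¹`: they are Hodge tensors at all points (of the product of the lines for different denominators), so `(x_j)` is not in
  the part of the Hodge locus of this product which is defined by tensors of degree at most `δ`. For `δ = 2`: all homomorphisms
  of Hodge structures between the fibres commute with the group; for example there are no such homomorphisms `≠ 0` between
  fibres at points with different denominators if the connected monodromy groups have no invariants.

1. In every family of tuples as above, of any variations, the denominators of which are at distance larger than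
   `2^(m+1) H (h + 2)` for different tuples, the conclusion holds for all but at most `s + 1` of the tuples.
2. There is a set `𝓔` of at most `M (s + 1)` denominators such that the conclusion holds for **all** tuples as above the
   denominators of which are at distance larger than `2^(m+1) H (h + 2)` from the elements of `𝓔`. The set `𝓔` depends
   on `β_1, …, β_s` and on the window only.
3. Without windows: there is `k`, which depends only on `m, n, N, q, s, e, δ`, such that for all `β_1, …, β_s`, `H` and `h` the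
   number of the integers `b ≤ B` which are the denominators of the points `x_j = a_j / b` of some tuple as above for which
   the conclusion is not true is `O(B^(1 - 1/k))`.

For `N = 1`: in the window `[b₀, b₀ + w]`, `w = ⌊b₀^(1/E) / (2 H)⌋ - h - 2`, there are at most `s + 1` integers `c` such that
**all** CM points `a / b` with `|a| ≤ h`, `b₀ ≤ b ≤ b₀ + w`, of all variations as above (with infinite monodromy on the line
`ℚ a`) have a denominator `b` with `|b - c| ≤ 2^(m+1) H (h + 2)` for one of these `c`; and the number of the denominators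
`b ≤ B` of CM points `a / b`, `|a| ≤ h`, of all these variations together is `O(B^(1 - 1/k))`. The ranks and Hodge numbers
are arbitrary, so in general the Mumford-Tate domain is not a Hermitian symmetric domain.

What is known. Nothing is known about the number of CM points in a given curve (apart from countability) if the generic Hodge
datum is not a Shimura datum. In the library: `IntegralFibresNotCM` (this problem) bounds the number of CM fibres at the
points `1 / t` for **one** variation over a curve by `C (1 + N / (x + N)^c)` in an interval of length `N`; `CMAllFamilies`,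
`BoundedTensors` and others are about endomorphisms and tensors of bounded size. New are here: the number `s + 1` of the
exceptions in a window, which depends only on the transcendence degree of the limit periods, the uniformity in the
variations, bases of any dimension, and the tuples of fibres of different variations with all Hodge tensors of the sum. For the
relations between the periods see our `DegreeBoundedNearDegenerate` (MP_5591bc_ag), the same method.

Proof (`Pool/Agent/H885`). (i) Relations: a linear independence theorem for values of G-functions at `1 / t` with explicit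
powers of the height of the system, Galochkin's condition for `x^R Z` (`GN`), twisted shifts (`EPm`, `TwS`, `CurTw`) to a common
point `1 / t₀` such that only one further number `log t₀` is needed for the window; in an ultraproduct of a sequence of
counterexamples there are derivations of `*ℂ` over `*ℚ` which move the values at one tuple by a given symmetry and kill those at
the other tuples (`derW`); since there are only the `s + 1` numbers `β_i, log t₀`, for one of `s + 2` separated tuples all
symmetries are realised by derivations which kill the constants (`uniformWO`); the space of the symmetries is defined over `ℚ`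
(`symW_rat`). So for this tuple all relations of bounded degree with rational coefficients hold on the orbit of `G°`. (ii) A
Hodge tensor is a rational relation. So it remains a Hodge tensor after translation by the elements of `Γ`. The translates
are integral and have the same norm in the Hodge metric, which for Hodge tensors is given by the polarization (`PV/H1`, `PV/H3`
of helper V11273 of the library), so the orbit is finite (`orbit_finite`), and constant on one-parameter groups in the
Zariski closure (`orbit_closure`, `path_fixed`). (iii) For an endomorphism `M` with distinct eigenvalues the tensor `Mᵀ S` has a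
finite orbit, so infinitely many elements of `Γ_j` commute with `M`, hence preserve the Hodge filtration at `x_j`; but the
polarized Hodge structure has only finitely many automorphisms (`no_cm`).

-/

set_option autoImplicit false

open PowerSeries Filter
open scoped Matrix

namespace Pool.Agent.Results.MP_2794d1_ag.FewCMFibresNearDegenerate

section several
variable {n m N : ℕ}

/-- an integer polynomial in `m` variables as a power series with rational coefficients -/
noncomputable def toQ (P : MvPolynomial (Fin m) ℤ) : MvPowerSeries (Fin m) ℚ :=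
  ((P.map (Int.castRingHom ℚ) : MvPolynomial (Fin m) ℚ) : MvPowerSeries (Fin m) ℚ)

/-- the partial derivative `∂f / ∂x_i` -/
noncomputable def partialD (i : Fin m) (f : MvPowerSeries (Fin m) ℚ) : MvPowerSeries (Fin m) ℚ :=
  fun ν => ((ν i : ℚ) + 1) * MvPowerSeries.coeff (ν + Finsupp.single i 1) f

/-- `Z` is an invertible `n × n` matrix of G-functions in `m` variables with rational coefficients, `W = Z⁻¹`, `R_1, …, R_m`
are commuting nilpotent integral matrices, and `x_1^(R_1) ⋯ x_m^(R_m) Z` solves a system with logarithmic poles, that is,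
`T (x_i ∂Z / ∂x_i + R_i Z) = Z A_i`, `i = 1, …, m`. The degrees of `T` and `A_i` are at most `q`; the absolute values of their
coefficients and of the entries of the `R_i` and the growth of the coefficients of `Z` and of the denominators of the
coefficients of `Z` and `W` are bounded by `H`. -/
structure Family (q : ℕ) (H : ℝ) (T : MvPolynomial (Fin m) ℤ) (A : Fin m → Fin n → Fin n → MvPolynomial (Fin m) ℤ)
    (R : Fin m → Matrix (Fin n) (Fin n) ℤ) (Z W : Matrix (Fin n) (Fin n) (MvPowerSeries (Fin m) ℚ)) : Prop where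
  /-- the degree of `T` -/
  degT : T.totalDegree ≤ q
  /-- the height of `T` -/
  sizeT : ∀ ν, |((T.coeff ν : ℤ) : ℝ)| ≤ H
  /-- the degrees of the `A_i` -/
  degA : ∀ i a b, (A i a b).totalDegree ≤ q
  /-- the heights of the `A_i` -/
  sizeA : ∀ i a b ν, |(((A i a b).coeff ν : ℤ) : ℝ)| ≤ H
  /-- the residues commute -/
  comm : ∀ i i', R i * R i' = R i' * R i
  /-- the residues are nilpotent -/
  nil : ∀ i, R i ^ n = 0
  /-- the size of the residues -/
  sizeR : ∀ i a b, |((R i a b : ℤ) : ℝ)| ≤ H
  /-- the differential equations -/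
  ode : ∀ i a b, toQ T * (MvPowerSeries.X i * partialD i (Z a b) + ∑ c, MvPowerSeries.C (R i a c : ℚ) * Z c b) =
    ∑ l, Z a l * toQ (A i l b)
  /-- `W` is the inverse of `Z` -/
  inv : W * Z = 1
  /-- the growth of the coefficients -/
  size : ∀ a b (ν : Fin m →₀ ℕ), |((MvPowerSeries.coeff ν (Z a b) : ℚ) : ℝ)| ≤ H ^ (∑ i, ν i + 1)
  /-- the growth of the common denominators of the coefficients -/
  den : ∀ k : ℕ, ∃ d : ℕ, 0 < d ∧ (d : ℝ) ≤ H ^ (k + 1) ∧ ∀ a b (ν : Fin m →₀ ℕ), ∑ i, ν i ≤ k →
    (∃ z : ℤ, (d : ℚ) * MvPowerSeries.coeff ν (Z a b) = z) ∧ ∃ z : ℤ, (d : ℚ) * MvPowerSeries.coeff ν (W a b) = z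

/-- the matrix `R_1 + … + R_m`, the residue of the restriction to a line through `0`, over `ℂ` -/
noncomputable def residue (R : Fin m → Matrix (Fin n) (Fin n) ℤ) : Matrix (Fin n) (Fin n) ℂ :=
  (∑ i, R i).map (Int.castRingHom ℂ)

/-- the power series `f(x a)` in the variable `x`, the restriction of `f` to the line through `0` with direction `a` -/
noncomputable def restrict (a : Fin m → ℤ) (f : MvPowerSeries (Fin m) ℚ) : PowerSeries ℚ :=
  PowerSeries.mk fun k => ∑ ν ∈ (Finset.univ : Finset (Fin m)).finsuppAntidiag k,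
    MvPowerSeries.coeff ν f * ∏ i, (a i : ℚ) ^ ν i

/-- the value `Z(a / b)`, that is, the value of the restriction of `Z` to the line at `x = 1 / b` -/
noncomputable def value (Z : Matrix (Fin n) (Fin n) (MvPowerSeries (Fin m) ℚ)) (a : Fin m → ℤ) (b : ℕ) :
    Matrix (Fin n) (Fin n) ℂ :=
  Matrix.of fun i j => ((∑' k : ℕ, ((coeff k (restrict a (Z i j)) : ℚ) : ℝ) * (1 / (b : ℝ)) ^ k : ℝ) : ℂ)

/-- the matrix `u^(R_1 + … + R_m) Z(a u)` at `u = 1 / b`, that is, `exp (-log(b) (R_1 + … + R_m)) Z(a / b)` -/
noncomputable def solution (R : Fin m → Matrix (Fin n) (Fin n) ℤ) (Z : Matrix (Fin n) (Fin n) (MvPowerSeries (Fin m) ℚ))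
    (a : Fin m → ℤ) (b : ℕ) : Matrix (Fin n) (Fin n) ℂ :=
  NormedSpace.exp (-((Real.log b : ℂ) • residue R)) * value Z a b

/-- the restriction of `Z` to the line with direction `a`, over `ℂ` -/
noncomputable def onLine (a : Fin m → ℤ) (Z : Matrix (Fin n) (Fin n) (MvPowerSeries (Fin m) ℚ)) :
    Matrix (Fin n) (Fin n) (PowerSeries ℂ) :=
  Z.map fun f => PowerSeries.map (algebraMap ℚ ℂ) (restrict a f)

/-- `(X_1, …, X_N)` is an infinitesimal symmetry of the matrices `Y_1, …, Y_N` of power series: for all polynomial relations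
`R(x, Y_1(x), …, Y_N(x)) = 0` over `ℂ[x]` the derivative of `R(x, (1 + ε X_1) Y_1(x), …, (1 + ε X_N) Y_N(x))` at `ε = 0` is
zero. -/
def Symmetry (Y : Fin N → Matrix (Fin n) (Fin n) (PowerSeries ℂ)) (X : Fin N → Matrix (Fin n) (Fin n) ℂ) : Prop :=
  ∀ R : MvPolynomial (Fin N × Fin n × Fin n) (Polynomial ℂ),
    MvPolynomial.aeval (fun σ => Y σ.1 σ.2.1 σ.2.2) R = 0 →
    ∑ σ, MvPolynomial.aeval (fun σ => Y σ.1 σ.2.1 σ.2.2) (MvPolynomial.pderiv σ R) *
      ((X σ.1).map (PowerSeries.C (R := ℂ)) * Y σ.1) σ.2.1 σ.2.2 = 0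

end several

/-- `y` satisfies an equation `P(ξ, y) = 0` where `P` has rational coefficients and total degree at most `e` and `P(ξ, Y)` is
not the zero polynomial. All algebraic numbers of degree at most `e` and all polynomials of degree at most `e` in the `ξ_i` with
rational coefficients have this property. -/
def AlgebraicOver (e : ℕ) {u : ℕ} (ξ : Fin u → ℂ) (y : ℂ) : Prop :=
  ∃ P : MvPolynomial (Option (Fin u)) ℚ, P.totalDegree ≤ e ∧ MvPolynomial.aeval (fun o : Option (Fin u) => o.elim y ξ) P = 0 ∧
    ∃ y' : ℂ, MvPolynomial.aeval (fun o : Option (Fin u) => o.elim y' ξ) P ≠ 0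

/-- numbers which are algebraic over `ℚ(ξ_1, …, ξ_u)` are algebraic of bounded degree -/
theorem algebraicOver_of_isAlgebraic {u : ℕ} {ξ : Fin u → ℂ} {y : ℂ}
    (h : IsAlgebraic (IntermediateField.adjoin ℚ (Set.range ξ)) y) : ∃ e, AlgebraicOver e ξ y :=
  Pool.Agent.H885.algD_of_alg h

/-- the distance of `b` and `c` is larger than `2^(m+1) H (h + 2)` -/
def Far (m : ℕ) (H : ℝ) (h b c : ℕ) : Prop := 2 ^ (m + 1) * H * ((h : ℝ) + 2) < |(b : ℝ) - c|

/-- A tuple of `N` fibres: denominators `b_j` and numerators `a_j` of the points, systems `T_j, A_j, R_j`, their fundamental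
matrices `Z_j` and `W_j = Z_j⁻¹`, the period matrices `C_j` of the limits. -/
structure Fibres (m n N : ℕ) where
  /-- the denominators of the points -/
  b : Fin N → ℕ
  /-- the numerators of the points -/
  a : Fin N → Fin m → ℤ
  /-- the denominators of the systems -/
  T : Fin N → MvPolynomial (Fin m) ℤ
  /-- the matrices of the systems -/
  A : Fin N → Fin m → Fin n → Fin n → MvPolynomial (Fin m) ℤ
  /-- the residues -/
  R : Fin N → Fin m → Matrix (Fin n) (Fin n) ℤ
  /-- the fundamental matrices -/
  Z : Fin N → Matrix (Fin n) (Fin n) (MvPowerSeries (Fin m) ℚ)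
  /-- their inverses -/
  W : Fin N → Matrix (Fin n) (Fin n) (MvPowerSeries (Fin m) ℚ)
  /-- the periods of the limits -/
  C : Fin N → Matrix (Fin n) (Fin n) ℂ

/-- the period matrices `C_j exp (-log(b_j) R_j) Z_j(a_j / b_j)` of the fibres -/
noncomputable def Fibres.periods {m n N : ℕ} (x : Fibres m n N) : Fin N → Matrix (Fin n) (Fin n) ℂ :=
  fun j => x.C j * solution (x.R j) (x.Z j) (x.a j) (x.b j)

/-- for all `λ` the tuple of the conjugates `exp (λ R_j) X_j exp (-λ R_j)` is an infinitesimal symmetry of the restrictions of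
the `Z_j` to the lines `ℚ a_j`, separately for each denominator `c` -/
def Fibres.IsSymmetry {m n N : ℕ} (x : Fibres m n N) (X : Fin N → Matrix (Fin n) (Fin n) ℂ) : Prop := ∀ (c : ℕ) (lam : ℂ),
  Symmetry (fun j => if x.b j = c then onLine (x.a j) (x.Z j) else 1)
    (fun j => if x.b j = c then
      NormedSpace.exp (lam • residue (x.R j)) * X j * NormedSpace.exp (-(lam • residue (x.R j))) else 0)

/-- the group generated by the exponentials of these symmetries (it contains the inverses, since `-X` is a symmetry if `X` is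
one) -/
noncomputable def Fibres.group {m n N : ℕ} (x : Fibres m n N) : Submonoid (Fin N → Matrix (Fin n) (Fin n) ℂ) :=
  Submonoid.closure {g | ∃ X, x.IsSymmetry X ∧ g = fun j => NormedSpace.exp (X j)}

/-- The conditions for a tuple of fibres, see the description of the theorem. -/
structure Fibres.Valid {m n N s : ℕ} (q M e : ℕ) (β : Fin s → ℂ) (H : ℝ) (h w b₀ : ℕ) (x : Fibres m n N) : Prop where
  /-- the denominators are in the window `[b₀, b₀ + w]` -/
  window : ∀ j, b₀ ≤ x.b j ∧ x.b j ≤ b₀ + w
  /-- they are equal or far from each other -/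
  far : ∀ i j, x.b i = x.b j ∨ Far m H h (x.b i) (x.b j)
  /-- at most `M` of them are different -/
  different : (Finset.univ.image x.b).card ≤ M
  /-- the numerators are bounded by `h` -/
  numerators : ∀ j i, |x.a j i| ≤ h
  /-- the systems have degree at most `q`, height and growth constants at most `H` -/
  family : ∀ j, Family q H (x.T j) (x.A j) (x.R j) (x.Z j) (x.W j)
  /-- the lines are not contained in the polar loci -/
  pole : ∀ j, restrict (x.a j) (toQ (x.T j)) ≠ 0
  /-- the periods of the limits are algebraic over `ℚ(β)` -/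
  central : ∀ j i i', AlgebraicOver e β (x.C j i i')

/-! ## Hodge structures -/

/-- an integral matrix as a complex matrix -/
def toC {n : ℕ} (M : Matrix (Fin n) (Fin n) ℤ) : Matrix (Fin n) (Fin n) ℂ := M.map (Int.cast : ℤ → ℂ)

/-- The Hodge structure of weight `w` with the period matrix `Y` (rows: a basis of the lattice, columns: a basis `Y_a` adapted to
the Hodge filtration, with the levels `p a`) is polarized by `S`: there is a basis `Z` adapted to the Hodge decomposition and
unitary for the Hodge metric, that is, `Z_b` is in `F^(p b)` (the span of the `Y_a` with `p a ≥ p b`), its conjugate is in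
the span of the `Z_a` with `p a = w - p b`, and `S(Z_a, conj Z_b) = i ^ (w - 2 p b)` if `a = b`, and `0` if not. -/
def HasUnitaryBasis {n : ℕ} (p : Fin n → ℤ) (w : ℤ) (S Y : Matrix (Fin n) (Fin n) ℂ) : Prop :=
  ∃ Z T M : Matrix (Fin n) (Fin n) ℂ, Z = Y * T ∧ (∀ a b, T a b ≠ 0 → p b ≤ p a) ∧
    Z.map (starRingEnd ℂ) = Z * M ∧ (∀ a b, M a b ≠ 0 → p a + p b = w) ∧
    Zᵀ * S * Z.map (starRingEnd ℂ) = Matrix.diagonal fun b => Complex.I ^ (w - 2 * p b)

/-- the discrete data of `N` polarized variations of Hodge structure -/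
structure HodgeData (n N : ℕ) where
  /-- the levels of the columns of the period matrices in the Hodge filtration -/
  p : Fin N → Fin n → ℤ
  /-- the weights -/
  wt : Fin N → ℤ
  /-- the polarizations in the flat bases -/
  S : Fin N → Matrix (Fin n) (Fin n) ℤ

/-- the fibres are polarized Hodge structures `V_j` -/
def IsPolarized {m n N : ℕ} (V : HodgeData n N) (x : Fibres m n N) : Prop :=
  ∀ j, HasUnitaryBasis (V.p j) (V.wt j) (toC (V.S j)) (x.periods j)

/-- `Γ` is a group of tuples of integral matrices which preserve the polarizations, and all tuples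
`C_j⁻¹ γ_j C_j` are in the group generated by the exponentials of the symmetries. -/
structure IsMonodromy {m n N : ℕ} (V : HodgeData n N) (x : Fibres m n N)
    (Γ : Subgroup (Fin N → Matrix.GeneralLinearGroup (Fin n) ℤ)) : Prop where
  /-- the polarizations are preserved -/
  preserves : ∀ γ ∈ Γ, ∀ j, (toC (γ j : Matrix (Fin n) (Fin n) ℤ))ᵀ * toC (V.S j) * toC (γ j : Matrix (Fin n) (Fin n) ℤ) = toC (V.S j)
  /-- the tuples are in the group -/
  mem : ∀ γ ∈ Γ, (fun j => (x.C j)⁻¹ * toC (γ j : Matrix (Fin n) (Fin n) ℤ) * x.C j) ∈ x.group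

/-- `Γ` is Zariski dense in the group -/
def IsDense {m n N : ℕ} (x : Fibres m n N) (Γ : Subgroup (Fin N → Matrix.GeneralLinearGroup (Fin n) ℤ)) : Prop :=
  ∀ Q : MvPolynomial (Fin N × Fin n × Fin n) ℂ,
    (∀ γ ∈ Γ, MvPolynomial.eval (fun σ => toC (γ σ.1 : Matrix (Fin n) (Fin n) ℤ) σ.2.1 σ.2.2) Q = 0) →
    ∀ g ∈ x.group, MvPolynomial.eval (fun σ => (x.C σ.1 * g σ.1 * (x.C σ.1)⁻¹) σ.2.1 σ.2.2) Q = 0

/-- the value of the tensor `τ` at the pure tensor of the columns with the numbers `J` of `Y` -/
noncomputable def pairing {I : Type} [Fintype I] {k : ℕ} (τ : (Fin k → I) → ℤ) (Y : Matrix I I ℂ) (J : Fin k → I) : ℂ :=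
  ∑ a, (τ a : ℂ) * ∏ i, Y (a i) (J i)

/-- `τ` is a Hodge tensor (of degree `k`, of type `(0, 0)` after twists) of the sum of the Hodge structures `V_j`: it is
orthogonal to all pure tensors of columns the level of which is larger than half of the weight -/
def IsHodge {m n N k : ℕ} (V : HodgeData n N) (x : Fibres m n N) (τ : (Fin k → Fin n × Fin N) → ℤ) : Prop :=
  ∀ J : Fin k → Fin n × Fin N, ∑ i, V.wt (J i).2 < 2 * ∑ i, V.p (J i).2 (J i).1 →
    pairing τ (Matrix.blockDiagonal x.periods) J = 0

/-- `τ` is fixed by the elements `(C_j g_j C_j⁻¹)_j` -/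
def IsFixed {m n N k : ℕ} (x : Fibres m n N) (τ : (Fin k → Fin n × Fin N) → ℤ) : Prop :=
  ∀ g ∈ x.group, ∀ J, pairing τ (Matrix.blockDiagonal fun j => x.C j * g j * (x.C j)⁻¹) J = τ J

/-- The Hodge structure `V_j` is CM: some integral matrix `M` with distinct eigenvalues preserves the Hodge filtration, that
is, it maps the column `b` of the period matrix to the span of the columns `a` with `p a ≥ p b`. -/
def IsCM {m n N : ℕ} (V : HodgeData n N) (x : Fibres m n N) (j : Fin N) : Prop :=
  ∃ M : Matrix (Fin n) (Fin n) ℤ, (∃ L : Matrix (Fin n) (Fin n) ℂ, toC M * x.periods j = x.periods j * L ∧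
    ∀ a b, L a b ≠ 0 → V.p j b ≤ V.p j a) ∧ (toC M).charpoly.Separable

/-- The conclusion for a tuple of fibres: for all structures of polarized Hodge structures on the fibres and all groups `Γ` of
integral isometries in the group: if the group of the `γ_j`, `γ ∈ Γ`, is infinite then `V_j` is not CM; if `Γ` is Zariski
dense then all Hodge tensors of degree at most `δ` of `⨁ V_j` are fixed by the group. -/
def Fibres.Good {m n N : ℕ} (δ : ℕ) (x : Fibres m n N) : Prop :=
  ∀ V : HodgeData n N, IsPolarized V x → ∀ Γ : Subgroup (Fin N → Matrix.GeneralLinearGroup (Fin n) ℤ), IsMonodromy V x Γ →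
    (∀ j, Infinite (Γ.map (Pi.evalMonoidHom (fun _ : Fin N => Matrix.GeneralLinearGroup (Fin n) ℤ) j)) → ¬ IsCM V x j) ∧
    (IsDense x Γ → ∀ k ≤ δ, ∀ τ : (Fin k → Fin n × Fin N) → ℤ, IsHodge V x τ → IsFixed x τ)

/-- the denominators of two tuples of fibres are far from each other -/
def Separated {m n N : ℕ} (H : ℝ) (h : ℕ) (x y : Fibres m n N) : Prop := ∀ i j, Far m H h (x.b i) (y.b j)

/-- the denominators `b ≤ B` of the tuples of fibres over points `a_j / b` which satisfy the conditions (for the window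
`{b}`) but not the conclusion -/
def exceptional (m n N : ℕ) {s : ℕ} (q e δ : ℕ) (β : Fin s → ℂ) (H : ℝ) (h B : ℕ) : Set ℕ :=
  {b | b ≤ B ∧ ∃ x : Fibres m n N, x.Valid q 1 e β H h 0 b ∧ (∀ j, x.b j = b) ∧ ¬ x.Good δ}

/-! ## Proofs -/

theorem base_of {m n q : ℕ} {H : ℝ} (hH : 1 ≤ H) {T : MvPolynomial (Fin m) ℤ}
    {A : Fin m → Fin n → Fin n → MvPolynomial (Fin m) ℤ} {R : Fin m → Matrix (Fin n) (Fin n) ℤ}
    {Z W : Matrix (Fin n) (Fin n) (MvPowerSeries (Fin m) ℚ)}
    (h : Family q H T A R Z W) : Pool.Agent.H885.FamN q H T A R Z W :=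
  ⟨hH, h.degT, h.sizeT, h.degA, h.sizeA, h.comm, h.nil, h.sizeR, h.ode, h.inv, h.size, h.den⟩

/-- the solution in terms of the polynomials for the exponential function -/
theorem solution_eq {m n q : ℕ} {H : ℝ} {T : MvPolynomial (Fin m) ℤ}
    {A : Fin m → Fin n → Fin n → MvPolynomial (Fin m) ℤ} {R : Fin m → Matrix (Fin n) (Fin n) ℤ}
    {Z W : Matrix (Fin n) (Fin n) (MvPowerSeries (Fin m) ℚ)} (h : Family q H T A R Z W) (a : Fin m → ℤ) (b : ℕ) :
    solution R Z a b = Pool.Agent.H885.eP (∑ i, R i) (Complex.log (b : ℝ)) * value Z a b := by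
  unfold solution residue
  rw [Pool.Agent.H885.eP_nexp (Pool.Agent.H885.sumR_nil h.comm h.nil), Complex.ofReal_log (by positivity)]

theorem sym_cent {m n N : ℕ} (Z : Fin N → Matrix (Fin n) (Fin n) (MvPowerSeries (Fin m) ℚ)) (a : Fin N → Fin m → ℤ)
    (b : Fin N → ℕ) (β : ℕ) :
    Pool.Agent.H885.cent (Pool.Agent.H885.part b (fun j => Pool.Agent.H885.lineM (a j) (Z j)) β) =
      fun σ : Fin N × Fin n × Fin n => (if b σ.1 = β then onLine (a σ.1) (Z σ.1) else 1) σ.2.1 σ.2.2 := by
  funext σ
  unfold Pool.Agent.H885.cent Pool.Agent.H885.part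
  by_cases hb : b σ.1 = β
  · rw [if_pos hb, if_pos hb]
    rfl
  · rw [if_neg hb, if_neg hb, Matrix.one_apply, Matrix.one_apply]
    split_ifs
    · exact map_one _
    · exact map_zero _

theorem sym_inf {m n N : ℕ} {Z : Fin N → Matrix (Fin n) (Fin n) (MvPowerSeries (Fin m) ℚ)} {a : Fin N → Fin m → ℤ}
    {b : Fin N → ℕ} {β : ℕ} {X : Fin N → Matrix (Fin n) (Fin n) ℂ} :
    Symmetry (fun j => if b j = β then onLine (a j) (Z j) else 1) (fun j => if b j = β then X j else 0) ↔
    Pool.Agent.H885.InfT (Pool.Agent.H885.part b (fun j => Pool.Agent.H885.lineM (a j) (Z j)) β)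
      (fun j => if b j = β then X j else 0) := by
  have h1 := sym_cent Z a b β
  constructor
  · intro h R hR
    rw [h1] at hR ⊢
    refine Eq.trans ?_ (h R hR)
    refine Finset.sum_congr rfl fun σ _ => ?_
    rw [Matrix.mul_apply]
    rfl
  · intro h R hR
    have h2 := h R (by
      rw [h1]
      exact hR)
    rw [h1] at h2
    refine Eq.trans ?_ h2
    refine Finset.sum_congr rfl fun σ _ => ?_
    rw [Matrix.mul_apply]
    rfl

theorem far_symm {m : ℕ} {H : ℝ} {h b c : ℕ} (hbc : Far m H h b c) : Far m H h c b := by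
  unfold Far at hbc ⊢
  rw [abs_sub_comm]
  exact hbc

/-- the conjugates in terms of the polynomials for the exponential function -/
theorem cjg_eq {m n N : ℕ} {R : Fin N → Fin m → Matrix (Fin n) (Fin n) ℤ} (hR : ∀ j, (∑ i, R j i) ^ n = 0) (lam : ℂ)
    (X : Fin N → Matrix (Fin n) (Fin n) ℂ) (j : Fin N) :
    NormedSpace.exp (lam • residue (R j)) * X j * NormedSpace.exp (-(lam • residue (R j))) =
      Pool.Agent.H885.cjg (fun j => ∑ i, R j i) lam X j := by
  unfold Pool.Agent.H885.cjg residue
  rw [Pool.Agent.H885.eP_nexp (hR j), Pool.Agent.H885.eP_nexp (hR j), neg_smul, neg_neg]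

/-- the symmetries -/
theorem sym_iff {m n N : ℕ} {x : Fibres m n N} (hR : ∀ j, (∑ i, x.R j i) ^ n = 0) {X : Fin N → Matrix (Fin n) (Fin n) ℂ} :
    x.IsSymmetry X ↔ X ∈ Pool.Agent.H885.symW x.b (fun j => ∑ i, x.R j i) (fun j => Pool.Agent.H885.lineM (x.a j) (x.Z j)) := by
  constructor
  · intro h lam c
    have h1 := h c lam
    have h2 : (fun j => if x.b j = c then
        NormedSpace.exp (lam • residue (x.R j)) * X j * NormedSpace.exp (-(lam • residue (x.R j))) else 0) =
        fun j => if x.b j = c then Pool.Agent.H885.cjg (fun j => ∑ i, x.R j i) lam X j else 0 := by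
      funext j
      rw [cjg_eq hR]
    rw [h2] at h1
    exact sym_inf.1 h1
  · intro h c lam
    have h2 : (fun j => if x.b j = c then
        NormedSpace.exp (lam • residue (x.R j)) * X j * NormedSpace.exp (-(lam • residue (x.R j))) else 0) =
        fun j => if x.b j = c then Pool.Agent.H885.cjg (fun j => ∑ i, x.R j i) lam X j else 0 := by
      funext j
      rw [cjg_eq hR]
    rw [h2]
    exact sym_inf.2 (h lam c)

/-- conjugation of the group -/
theorem group_conj {m n N : ℕ} {x : Fibres m n N} (hR : ∀ j, (∑ i, x.R j i) ^ n = 0) (u : ℂ)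
    {g : Fin N → Matrix (Fin n) (Fin n) ℂ} (hg : g ∈ x.group) :
    (fun j => Pool.Agent.H885.eP (∑ i, x.R j i) (-u) * g j * Pool.Agent.H885.eP (∑ i, x.R j i) u) ∈
      Pool.Agent.H885.expG (Pool.Agent.H885.symW x.b (fun j => ∑ i, x.R j i)
        (fun j => Pool.Agent.H885.lineM (x.a j) (x.Z j)) : Set (Fin N → Matrix (Fin n) (Fin n) ℂ)) := by
  have hinv : ∀ j, Pool.Agent.H885.eP (∑ i, x.R j i) u * Pool.Agent.H885.eP (∑ i, x.R j i) (-u) = 1 := fun j => by
    have h1 := Pool.Agent.H885.eP_inv (hR j) (-u)
    rwa [neg_neg] at h1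
  unfold Fibres.group at hg
  induction hg using Submonoid.closure_induction with
  | mem g hg =>
    obtain ⟨X, hX, rfl⟩ := hg
    refine Submonoid.subset_closure ⟨Pool.Agent.H885.cjg (fun j => ∑ i, x.R j i) u X,
      Pool.Agent.H885.symW_cjg hR ((sym_iff hR).1 hX) u, ?_⟩
    funext j
    have h1 : Pool.Agent.H885.eP (∑ i, x.R j i) u = (Pool.Agent.H885.eP (∑ i, x.R j i) (-u))⁻¹ :=
      (Matrix.inv_eq_left_inv (hinv j)).symm
    show _ = NormedSpace.exp (Pool.Agent.H885.eP (∑ i, x.R j i) (-u) * X j * Pool.Agent.H885.eP (∑ i, x.R j i) u)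
    rw [h1, Matrix.exp_conj]
    exact (Matrix.isUnit_iff_isUnit_det _).2 (Matrix.isUnit_det_of_left_inverse (hinv j))
  | one =>
    have h1 : (fun j => Pool.Agent.H885.eP (∑ i, x.R j i) (-u) * (1 : Fin N → Matrix (Fin n) (Fin n) ℂ) j *
        Pool.Agent.H885.eP (∑ i, x.R j i) u) = 1 := by
      funext j
      rw [Pi.one_apply, Matrix.mul_one, Pool.Agent.H885.eP_inv (hR j)]
    rw [h1]
    exact Submonoid.one_mem _
  | mul g g' _ _ hg hg' =>
    have h1 : (fun j => Pool.Agent.H885.eP (∑ i, x.R j i) (-u) * (g * g') j * Pool.Agent.H885.eP (∑ i, x.R j i) u) =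
        (fun j => Pool.Agent.H885.eP (∑ i, x.R j i) (-u) * g j * Pool.Agent.H885.eP (∑ i, x.R j i) u) *
        fun j => Pool.Agent.H885.eP (∑ i, x.R j i) (-u) * g' j * Pool.Agent.H885.eP (∑ i, x.R j i) u := by
      funext j
      rw [Pi.mul_apply, Pi.mul_apply]
      simp only [Matrix.mul_assoc]
      rw [← Matrix.mul_assoc (Pool.Agent.H885.eP (∑ i, x.R j i) u) (Pool.Agent.H885.eP (∑ i, x.R j i) (-u)), hinv j,
        Matrix.one_mul]
    rw [h1]
    exact Submonoid.mul_mem _ hg hg'

/-- the periods -/
theorem periods_eq {m n N q : ℕ} {H : ℝ} {x : Fibres m n N} (hF : ∀ j, Family q H (x.T j) (x.A j) (x.R j) (x.Z j) (x.W j))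
    {t₀ : ℕ} (ht₀ : 0 < t₀) (hb : ∀ j, 0 < x.b j) (j : Fin N) :
    solution (x.R j) (x.Z j) (x.a j) (x.b j) = Pool.Agent.H885.eP (∑ i, x.R j i) (Complex.log (t₀ : ℝ)) *
      Pool.Agent.H885.zT t₀ (∑ i, x.R j i) (Pool.Agent.H885.lineM (x.a j) (x.Z j)) (x.b j) := by
  rw [solution_eq (hF j)]
  unfold Pool.Agent.H885.zT
  have hb' : (0 : ℝ) < x.b j := by exact_mod_cast hb j
  have ht' : (0 : ℝ) < t₀ := by exact_mod_cast ht₀
  have h1 : Complex.log ((x.b j : ℝ) : ℂ) = Complex.log ((t₀ : ℝ) : ℂ) + Complex.log (((x.b j : ℝ) : ℂ) / ((t₀ : ℝ) : ℂ)) := by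
    rw [← Complex.ofReal_div, ← Complex.ofReal_log hb'.le, ← Complex.ofReal_log ht'.le, ← Complex.ofReal_log (by positivity),
      Real.log_div hb'.ne' ht'.ne']
    push_cast
    ring
  rw [h1, Pool.Agent.H885.eP_add (Pool.Agent.H885.sumR_nil (hF j).comm (hF j).nil), ← Matrix.mul_assoc]
  rfl

/-- all relations of degree at most `δ` with integral coefficients hold on the orbit of the group -/
def Gen {m n N : ℕ} (δ : ℕ) (x : Fibres m n N) : Prop :=
  ∀ S : MvPolynomial (Fin N × Fin n × Fin n) ℂ, S.totalDegree ≤ δ → (∀ ν, ∃ z : ℤ, S.coeff ν = z) →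
    MvPolynomial.eval (fun σ => x.periods σ.1 σ.2.1 σ.2.2) S = 0 →
    ∀ g ∈ x.group, MvPolynomial.eval (fun σ => (x.C σ.1 * (g σ.1 * solution (x.R σ.1) (x.Z σ.1) (x.a σ.1) (x.b σ.1))) σ.2.1 σ.2.2) S = 0

/-- `s + 2` separated tuples -/
theorem core₀ (m n N q s e δ : ℕ) : ∃ E : ℕ,
    ∀ (M : ℕ) (β : Fin s → ℂ) (H : ℝ) (h w b₀ : ℕ), 1 ≤ H →
    (2 * H * ((h : ℝ) + w + 2)) ^ E ≤ (b₀ : ℝ) → ∀ x : Fin (s + 2) → Fibres m n N, (∀ l, (x l).Valid q M e β H h w b₀) →
    (∀ l l', l ≠ l' → Separated H h (x l) (x l')) → ∃ l, Gen δ (x l) := by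
  classical
  set e' : ℕ := max e (max 1 n) with he'
  obtain ⟨E₀, hbase⟩ := Pool.Agent.H885.base_sysN m n q
  obtain ⟨E, hE⟩ := Pool.Agent.H885.uniformWO n N q (s + 1) 0 0 e' δ (s + 2) (by omega)
    ((le_max_left _ _).trans (le_max_right _ _))
  obtain ⟨e₁, he₁⟩ := Pool.Agent.H885.pow_absorb (c := (2 : ℝ) * (1 + 2 ^ m)) (by
    have : (1 : ℝ) ≤ 2 ^ m := one_le_pow₀ (by norm_num)
    linarith)
  refine ⟨(e₁ + E₀ + 1) * E + 1, fun M β H h w b₀ hH hbig₀ xs hxs hsep => ?_⟩
  set x : ℝ := 2 * H * ((h : ℝ) + w + 2) with hx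
  have hh0 : (0 : ℝ) ≤ h := by positivity
  have hw0 : (0 : ℝ) ≤ w := by positivity
  have hx1 : (h : ℝ) + w + 2 ≤ x := by
    rw [hx]
    nlinarith
  have hx2 : 2 ≤ x := by linarith
  have hx3 : H * ((h : ℝ) + 2) ≤ x := by
    rw [hx]
    nlinarith
  have hx4 : 2 * H * ((h : ℝ) + 2) ≤ x := by
    rw [hx]
    nlinarith
  have hb₀ : 0 < b₀ := by
    have h1 : (1 : ℝ) ≤ x ^ ((e₁ + E₀ + 1) * E + 1) := one_le_pow₀ (by linarith)
    have h2 : (1 : ℝ) ≤ b₀ := h1.trans hbig₀
    exact_mod_cast h2
  have hbig : x ^ ((e₁ + E₀ + 1) * E) ≤ (b₀ : ℝ) := (pow_le_pow_right₀ (by linarith) (Nat.le_succ _)).trans hbig₀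
  have hbig' : (2 * (2 * H * ((h : ℝ) + 2)) ^ E₀ * ((w : ℝ) + 2 ^ m * (H * ((h : ℝ) + 2)) + 2)) ^ E ≤ (b₀ : ℝ) := by
    refine le_trans ?_ hbig
    rw [pow_mul]
    refine pow_le_pow_left₀ (by positivity) ?_ E
    have h1 : (2 * H * ((h : ℝ) + 2)) ^ E₀ ≤ x ^ E₀ := pow_le_pow_left₀ (by positivity) hx4 _
    have h2 : (w : ℝ) + 2 ^ m * (H * ((h : ℝ) + 2)) + 2 ≤ (1 + 2 ^ m) * x := by
      have h3 : (2 : ℝ) ^ m * (H * ((h : ℝ) + 2)) ≤ 2 ^ m * x := mul_le_mul_of_nonneg_left hx3 (by positivity)
      linarith
    calc 2 * (2 * H * ((h : ℝ) + 2)) ^ E₀ * ((w : ℝ) + 2 ^ m * (H * ((h : ℝ) + 2)) + 2) ≤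
        2 * x ^ E₀ * ((1 + 2 ^ m) * x) := by
          refine mul_le_mul (by linarith) h2 (by positivity) (by positivity)
      _ = (2 * (1 + 2 ^ m)) * (x ^ E₀ * x) := by ring
      _ ≤ x ^ e₁ * (x ^ E₀ * x) := mul_le_mul_of_nonneg_right (he₁ x hx2) (by positivity)
      _ = x ^ (e₁ + E₀ + 1) := by ring
  have hFar : ∀ b c : ℕ, Far m H h b c → 2 * (2 ^ m * (H * ((h : ℝ) + 2))) < |(b : ℝ) - c| := by
    intro b c hbc
    refine lt_of_eq_of_lt ?_ hbc
    ring
  have hH1 : (1 : ℝ) ≤ (2 * H * ((h : ℝ) + 2)) ^ E₀ := one_le_pow₀ (by nlinarith)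
  have hfam := fun l j => hbase H _ _ _ _ _ (base_of hH ((hxs l).family j)) h _ ((hxs l).numerators j) ((hxs l).pole j)
  choose T' B' hT' hS' using hfam
  have hR : ∀ l j, (∑ i, (xs l).R j i) ^ n = 0 := fun l j =>
    Pool.Agent.H885.sumR_nil ((hxs l).family j).comm ((hxs l).family j).nil
  set X : Pool.Agent.H885.DatX (s + 2) n N := ⟨fun l j => ∑ i, (xs l).R j i, (2 * H * ((h : ℝ) + 2)) ^ E₀, T', B',
    fun l j => Pool.Agent.H885.lineM ((xs l).a j) ((xs l).Z j), fun l j => Pool.Agent.H885.lineM ((xs l).a j) ((xs l).W j),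
    2 ^ m * (H * ((h : ℝ) + 2)), w, b₀, fun l => (xs l).b,
    fun l => Pool.Agent.H885.symW (xs l).b (fun j => ∑ i, (xs l).R j i)
      fun j => Pool.Agent.H885.lineM ((xs l).a j) ((xs l).Z j)⟩ with hX
  have ht0 : 0 < X.t := by
    unfold Pool.Agent.H885.DatX.t
    omega
  set lt : ℂ := Complex.log ((X.t : ℝ) : ℂ) with hlt
  set Y : Pool.Agent.H885.OW.DatA (s + 2) n N (s + 1) 0 0 := ⟨Fin.cons lt β, fun l => (xs l).C,
    fun l j => Pool.Agent.H885.eP (∑ i, (xs l).R j i) lt, fun l j => X.z l j,
    fun l => Pool.Agent.H885.symW (xs l).b (fun j => ∑ i, (xs l).R j i)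
      (fun j => Pool.Agent.H885.lineM ((xs l).a j) ((xs l).Z j)),
    fun _ i => i.elim0, fun _ i => i.elim0, fun _ i => i.elim0, fun _ => ∅⟩ with hY
  have hsol : ∀ l j, solution ((xs l).R j) ((xs l).Z j) ((xs l).a j) ((xs l).b j) =
      Pool.Agent.H885.eP (∑ i, (xs l).R j i) lt * X.z l j := fun l j =>
    periods_eq (hxs l).family ht0 (fun j => lt_of_lt_of_le hb₀ ((hxs l).window j).1) j
  have hP : ∀ l, Y.P l = (xs l).periods := by
    intro l
    funext j
    show (xs l).C j * Pool.Agent.H885.eP (∑ i, (xs l).R j i) lt * X.z l j = (xs l).C j * solution _ _ _ _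
    rw [hsol, Matrix.mul_assoc]
  have hXOK : X.OK q E := ⟨hH1, hS', hT', by positivity, fun l j a' b' =>
      Pool.Agent.Y120.GH.cx_mem (by positivity) (Pool.Agent.H885.line_size hH (((hxs l).family j).size a' b')
        ((hxs l).numerators j)),
      fun l j => (hxs l).window j, fun l j l' j' hne => by
        by_cases hll : l = l'
        · subst hll
          rcases (hxs l).far j j' with h2 | h2
          · exact absurd ⟨rfl, h2⟩ hne
          · exact hFar _ _ h2
        · exact hFar _ _ (hsep l l' hll j j'), hbig', fun l Z hZ c lam => hZ lam c⟩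
  have hYOK : Y.OK e' := by
    refine ⟨fun l j i i' => ?_, fun l j i i' => ?_, fun ht => absurd ht (lt_irrefl _), fun l => ?_, fun l i => i.elim0, fun l => ?_,
      fun l => ⟨fun F hF => absurd hF (Set.notMem_empty F), fun F hF => absurd hF (Set.notMem_empty F)⟩,
      fun l ht => absurd ht (lt_irrefl _)⟩
    · exact ((Pool.Agent.H885.AlgD.mono (le_max_left _ _) ((hxs l).central j i i') : Pool.Agent.H885.AlgD e' β _)).cons lt
    · exact Pool.Agent.H885.algD_eP ((le_max_left _ _).trans (le_max_right _ _)) ((le_max_right _ _).trans (le_max_right _ _))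
        (∑ i, (xs l).R j i) (Fin.cons lt β : Fin (s + 1) → ℂ) 0 i i'
    · exact Pool.Agent.H885.symW_alg ((le_max_left _ _).trans (le_max_right _ _)) _
    · exact Pool.Agent.H885.ind_zero _ _
  obtain ⟨l, hl⟩ := hE X Y hXOK hYOK (fun l j => rfl) (fun l => rfl)
  refine ⟨l, fun S hS1 hS2 hS3 g hg => ?_⟩
  have h3 := hl S hS1 (fun ν => by
    obtain ⟨z, hz⟩ := hS2 ν
    rw [hz]
    have h4 := Pool.Agent.H885.algD_rat (e := e') ((le_max_left _ _).trans (le_max_right _ _)) (Y.η l) (z : ℚ)
    rwa [Rat.cast_intCast] at h4) (by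
      rw [hP]
      exact hS3) _ (group_conj (hR l) lt hg) 1 (Submonoid.one_mem _)
  refine Eq.trans ?_ h3
  congr 2
  funext σ
  have h4 : (xs l).C σ.1 * (g σ.1 * solution ((xs l).R σ.1) ((xs l).Z σ.1) ((xs l).a σ.1) ((xs l).b σ.1)) =
      (xs l).C σ.1 * Pool.Agent.H885.eP (∑ i, (xs l).R σ.1 i) lt * (Pool.Agent.H885.eP (∑ i, (xs l).R σ.1 i) (-lt) * g σ.1 *
        Pool.Agent.H885.eP (∑ i, (xs l).R σ.1 i) lt * X.z l σ.1) := by
    have h5 := Pool.Agent.H885.eP_inv (hR l σ.1) (-lt)
    rw [neg_neg] at h5
    rw [hsol]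
    simp only [Matrix.mul_assoc]
    rw [← Matrix.mul_assoc (Pool.Agent.H885.eP _ lt) (Pool.Agent.H885.eP _ (-lt)), h5, Matrix.one_mul]
  rw [h4, Pi.one_apply, Matrix.one_mul]
  rfl

open Matrix.Norms.Operator in
theorem exp_cont {n : ℕ} (X : Matrix (Fin n) (Fin n) ℂ) : Continuous fun s : ℂ => NormedSpace.exp (s • X) :=
  NormedSpace.exp_continuous.comp (continuous_id.smul continuous_const)

theorem smul_sym {m n N : ℕ} {x : Fibres m n N} (hR : ∀ j, (∑ i, x.R j i) ^ n = 0) {X : Fin N → Matrix (Fin n) (Fin n) ℂ}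
    (hX : x.IsSymmetry X) (s : ℂ) : x.IsSymmetry (s • X) :=
  (sym_iff hR).2 (Submodule.smul_mem _ s ((sym_iff hR).1 hX))

/-- from relations to Hodge tensors -/
theorem good_of_gen {m n N δ q : ℕ} {H : ℝ} {x : Fibres m n N}
    (hF : ∀ j, Family q H (x.T j) (x.A j) (x.R j) (x.Z j) (x.W j)) (hx : Gen (max δ 2) x) : x.Good δ := by
  classical
  intro V hV Γ hΓ
  have hR : ∀ j, (∑ i, x.R j i) ^ n = 0 := fun j => Pool.Agent.H885.sumR_nil (hF j).comm (hF j).nil
  have hfr : ∀ j, Pool.Agent.V11273.PV.Frame (V.p j) (V.wt j) (Pool.Agent.H885.HG.ic (V.S j)) (x.periods j) := hV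
  have hC : ∀ j, IsUnit (x.C j).det := by
    intro j
    obtain ⟨Y', hY'⟩ := Pool.Agent.V11273.GH.frame_unit (hfr j)
    unfold Fibres.periods at hY'
    rw [Matrix.mul_assoc] at hY'
    exact Matrix.isUnit_det_of_right_inverse hY'
  set G : Set (Fin N → Matrix (Fin n) (Fin n) ℂ) := {h | ∃ g ∈ x.group, h = fun j => x.C j * g j * (x.C j)⁻¹} with hGd
  have hInh : Pool.Agent.H885.HG.Inh (max δ 2) x.periods G := by
    rintro S hS1 hS2 hS3 _ ⟨g, hg, rfl⟩
    have h1 := hx S hS1 hS2 hS3 g hg
    refine Eq.trans ?_ h1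
    congr 2
    funext σ
    show (x.C σ.1 * g σ.1 * (x.C σ.1)⁻¹ * (x.C σ.1 * solution (x.R σ.1) (x.Z σ.1) (x.a σ.1) (x.b σ.1))) σ.2.1 σ.2.2 = _
    congr 2
    simp only [Matrix.mul_assoc]
    rw [Matrix.nonsing_inv_mul_cancel_left _ _ (hC σ.1)]
  have hΓG : ∀ γ ∈ Γ, Pool.Agent.H885.HG.icT γ ∈ G := by
    intro γ hγ
    refine ⟨_, hΓ.mem γ hγ, ?_⟩
    funext j
    simp only [Matrix.mul_assoc]
    rw [Matrix.mul_nonsing_inv _ (hC j), Matrix.mul_one, Matrix.mul_nonsing_inv_cancel_left _ _ (hC j)]
    rfl
  refine ⟨fun j hinf hcm => ?_, fun hd k hk τ hτ g hg J => ?_⟩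
  · obtain ⟨M, hMN, hM⟩ := hcm
    exact Pool.Agent.H885.HG.summand_not_cm (le_max_right _ _) hfr hInh Γ hΓ.preserves hΓG j hinf hM hMN
  · have key : ∀ g ∈ x.group, Pool.Agent.V11273.PV.rt (fun a => (τ a : ℂ))
        (Matrix.blockDiagonal fun j => x.C j * g j * (x.C j)⁻¹) = fun a => (τ a : ℂ) := by
      intro g hg
      unfold Fibres.group at hg
      induction hg using Submonoid.closure_induction with
      | mem g hg =>
        obtain ⟨X, hX, rfl⟩ := hg
        have h1 := Pool.Agent.H885.HG.tensors_fixed hfr hInh Γ hΓ.preserves hΓG (fun Q hQ g' hg' => by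
          obtain ⟨h, hh, rfl⟩ := hg'
          exact hd Q hQ h hh) (hk.trans (le_max_left _ _)) τ hτ
          (fun s j => x.C j * NormedSpace.exp (s • X j) * (x.C j)⁻¹) (by
            refine continuous_pi fun j => ?_
            refine (continuous_const.matrix_mul ?_).matrix_mul continuous_const
            exact exp_cont (X j)) (by
            funext j
            rw [zero_smul, NormedSpace.exp_zero, Matrix.mul_one, Matrix.mul_nonsing_inv _ (hC j)]
            rfl) (fun s => ⟨fun j => NormedSpace.exp (s • X j), Submonoid.subset_closure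
              ⟨s • X, smul_sym hR hX s, rfl⟩, rfl⟩) 1
        simp only [one_smul] at h1
        exact h1
      | one =>
        have h1 : (fun j => x.C j * (1 : Fin N → Matrix (Fin n) (Fin n) ℂ) j * (x.C j)⁻¹) = 1 := by
          funext j
          rw [Pi.one_apply, Matrix.mul_one, Matrix.mul_nonsing_inv _ (hC j)]
        rw [h1, Matrix.blockDiagonal_one, Pool.Agent.V11273.PV.rt_one]
      | mul g g' _ _ hg hg' =>
        have h1 : (fun j => x.C j * (g * g') j * (x.C j)⁻¹) =
            fun j => (x.C j * g j * (x.C j)⁻¹) * (x.C j * g' j * (x.C j)⁻¹) := by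
          funext j
          rw [Pi.mul_apply]
          simp only [Matrix.mul_assoc]
          rw [Matrix.nonsing_inv_mul_cancel_left _ _ (hC j)]
        rw [h1, Matrix.blockDiagonal_mul, Pool.Agent.V11273.PV.rt_mul, hg, hg']
    have h2 := congrFun (key g hg) J
    exact h2

/-- `s + 2` separated tuples -/
theorem core (m n N q s e δ : ℕ) : ∃ E : ℕ,
    ∀ (M : ℕ) (β : Fin s → ℂ) (H : ℝ) (h w b₀ : ℕ), 1 ≤ H →
    (2 * H * ((h : ℝ) + w + 2)) ^ E ≤ (b₀ : ℝ) → ∀ x : Fin (s + 2) → Fibres m n N, (∀ l, (x l).Valid q M e β H h w b₀) →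
    (∀ l l', l ≠ l' → Separated H h (x l) (x l')) → ∃ l, (x l).Good δ := by
  obtain ⟨E, hE⟩ := core₀ m n N q s e (max δ 2)
  refine ⟨E, fun M β H h w b₀ hH hbig x hx hsep => ?_⟩
  obtain ⟨l, hl⟩ := hE M β H h w b₀ hH hbig x hx hsep
  exact ⟨l, good_of_gen (hx l).family hl⟩

/-- parts 1 and 2 -/
theorem parts (m n N q s e δ : ℕ) : ∃ E : ℕ,
    ∀ (M : ℕ) (β : Fin s → ℂ) (H : ℝ) (h w b₀ : ℕ), 1 ≤ H → (2 * H * ((h : ℝ) + w + 2)) ^ E ≤ (b₀ : ℝ) →
    (∀ (L : ℕ) (x : Fin L → Fibres m n N), (∀ l, (x l).Valid q M e β H h w b₀) →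
      (∀ l l', l ≠ l' → Separated H h (x l) (x l')) → (∀ l, ¬ (x l).Good δ) → L ≤ s + 1) ∧
    ∃ 𝓔 : Finset ℕ, 𝓔.card ≤ M * (s + 1) ∧ ∀ x : Fibres m n N, x.Valid q M e β H h w b₀ →
      (∀ j, ∀ c ∈ 𝓔, Far m H h (x.b j) c) → x.Good δ := by
  classical
  obtain ⟨E, hE⟩ := core m n N q s e δ
  refine ⟨E, fun M β H h w b₀ hH hbig => ?_⟩
  have hPle : ∀ (L : ℕ) (x : Fin L → Fibres m n N), (∀ l, (x l).Valid q M e β H h w b₀) →
      (∀ l l', l ≠ l' → Separated H h (x l) (x l')) → (∀ l, ¬ (x l).Good δ) → L ≤ s + 1 := by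
    intro L x hx hsep hbad
    by_contra hcon
    obtain ⟨l, hl⟩ := hE M β H h w b₀ hH hbig (fun i => x (Fin.castLE (by omega) i)) (fun i => hx _)
      fun i i' hii => hsep _ _ fun h1 => hii (Fin.castLE_injective _ h1)
    exact hbad _ hl
  refine ⟨hPle, ?_⟩
  -- the exceptional denominators
  set P : ℕ → Prop := fun p => ∃ x : Fin p → Fibres m n N, (∀ l, (x l).Valid q M e β H h w b₀) ∧
    (∀ l l', l ≠ l' → Separated H h (x l) (x l')) ∧ ∀ l, ¬ (x l).Good δ with hP
  have hP0 : P 0 := ⟨fun l => l.elim0, fun l => l.elim0, fun l => l.elim0, fun l => l.elim0⟩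
  obtain ⟨p, hPp, hPp1⟩ : ∃ p, P p ∧ ¬ P (p + 1) := by
    by_contra hcon
    push Not at hcon
    have h1 : ∀ p, P p := by
      intro p
      induction p with
      | zero => exact hP0
      | succ p ih => exact hcon p ih
    obtain ⟨x, h2, h3, h4⟩ := h1 (s + 2)
    have := hPle _ x h2 h3 h4
    omega
  obtain ⟨x, hx, hsep, hbad⟩ := hPp
  have hple := hPle p x hx hsep hbad
  refine ⟨Finset.univ.biUnion fun l => Finset.univ.image (x l).b, ?_, fun y hy hyF => ?_⟩
  · refine Finset.card_biUnion_le.trans ?_
    refine (Finset.sum_le_card_nsmul _ _ M fun l _ => (hx l).different).trans ?_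
    rw [Finset.card_univ, Fintype.card_fin, smul_eq_mul, mul_comm]
    exact Nat.mul_le_mul_left _ hple
  · by_contra hybad
    apply hPp1
    refine ⟨Fin.cons y x, fun l => ?_, fun l l' hll i j => ?_, fun l => ?_⟩
    · refine Fin.cases ?_ (fun l => ?_) l
      · exact hy
      · exact hx l
    · have hin : ∀ l j, (x l).b j ∈ Finset.univ.biUnion fun l => Finset.univ.image (x l).b := fun l j =>
        Finset.mem_biUnion.2 ⟨l, Finset.mem_univ _, Finset.mem_image_of_mem _ (Finset.mem_univ _)⟩
      rcases Fin.eq_zero_or_eq_succ l with rfl | ⟨l, rfl⟩ <;> rcases Fin.eq_zero_or_eq_succ l' with rfl | ⟨l', rfl⟩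
      · exact absurd rfl hll
      · rw [Fin.cons_zero, Fin.cons_succ]
        exact hyF i _ (hin l' j)
      · rw [Fin.cons_zero, Fin.cons_succ]
        exact far_symm (hyF j _ (hin l i))
      · rw [Fin.cons_succ, Fin.cons_succ]
        exact hsep l l' (fun h1 => hll (by rw [h1])) i j
    · refine Fin.cases ?_ (fun l => ?_) l
      · exact hybad
      · exact hbad l

/-- **The theorem.** Part 1: the conclusion holds for all but at most `s + 1` of a family of separated tuples of fibres. Part 2:
the exceptional denominators in short windows. Part 3: the number of all exceptional denominators. -/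
theorem result (m n N q s e δ : ℕ) :
    (∃ E : ℕ, ∀ (M : ℕ) (β : Fin s → ℂ) (H : ℝ) (h w b₀ : ℕ), 1 ≤ H → (2 * H * ((h : ℝ) + w + 2)) ^ E ≤ (b₀ : ℝ) →
    (∀ (L : ℕ) (x : Fin L → Fibres m n N), (∀ l, (x l).Valid q M e β H h w b₀) →
      (∀ l l', l ≠ l' → Separated H h (x l) (x l')) → (∀ l, ¬ (x l).Good δ) → L ≤ s + 1) ∧
    ∃ 𝓔 : Finset ℕ, 𝓔.card ≤ M * (s + 1) ∧ ∀ x : Fibres m n N, x.Valid q M e β H h w b₀ →
      (∀ j, ∀ c ∈ 𝓔, Far m H h (x.b j) c) → x.Good δ) ∧
    ∃ k : ℕ, 0 < k ∧ ∀ (β : Fin s → ℂ) (H : ℝ) (h : ℕ), 1 ≤ H → ∃ C : ℝ, ∀ B : ℕ, 0 < B →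
      ((exceptional m n N q e δ β H h B).ncard : ℝ) ^ k ≤ C * (B : ℝ) ^ (k - 1) := by
  classical
  obtain ⟨E, hE⟩ := parts m n N q s e δ
  refine ⟨⟨E, hE⟩, 2 * (E + 1), by omega, fun β H h hH => ?_⟩
  exact Pool.Agent.H885.count_windows (fun B => exceptional m n N q e δ β H h B) hH h m (s + 1) E
    (fun B b hb => hb.1) fun w b₀ hbig => by
      obtain ⟨-, 𝓔, h1, h2⟩ := hE 1 β H h w b₀ hH hbig
      refine ⟨𝓔, by omega, fun B b hb hb1 hb2 => ?_⟩
      obtain ⟨x, hx1, hx2, hx3⟩ := hb.2
      by_contra hcon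
      push Not at hcon
      refine hx3 (h2 x ⟨fun j => ?_, hx1.far, hx1.different, hx1.numerators, hx1.family, hx1.pole, hx1.central⟩ fun j c hc => ?_)
      · rw [hx2 j]
        exact ⟨hb1, hb2⟩
      · rw [hx2 j]
        exact hcon c hc

end Pool.Agent.Results.MP_2794d1_ag.FewCMFibresNearDegenerate
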